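import Pool.Agent.MP_92191b_al.K6.T23

/-! Small refutations about centred sections over four letters. -/

namespace Pool.Agent.MP_92191b_al.X4

open K6 Equiv

/-- A typed word. -/
structure Pc where
  a : Fin 4
  b : Fin 4
  c : Fin 4
  d : Fin 4
  s : Bool
  t : Bool
  u : Bool
  v : Bool
  deriving DecidableEq

def ds (x y : Pc) : ℕ := nq x.a y.a + nq x.b y.b + nq x.c y.c + nq x.d y.d
def lo (x y : Pc) : ℕ := nq x.s y.s + nq x.t y.t + nq x.u y.u + nq x.v y.v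
def hi (x y : Pc) : ℕ := bo x.s y.s + bo x.t y.t + bo x.u y.u + bo x.v y.v

def cf (x y : Pc) : Bool :=
  Nat.blt 0 (ds x y) && Nat.ble (lo x y) (ds x y) && Nat.ble (ds x y) (hi x y)

def dg (n : ℕ) : Fin 4 := ⟨n % 4, Nat.mod_lt _ (by norm_num)⟩

/-- The typed word with a given code. -/
def dc (y : ℕ) : Pc := ⟨dg (y / 1024), dg (y / 256), dg (y / 64), dg (y / 16), y.testBit 0,
  y.testBit 1, y.testBit 2, y.testBit 3⟩

inductive Tr where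
  | L (z : ℕ) : Tr
  | S (y : ℕ) (t u : Tr) : Tr

def dead (p n : List Pc) (y : Pc) : Bool := p.any (cf y) || n.any fun x => decide (y = x)

def a4 (f : Fin 4 → Bool) : Bool := f 0 && f 1 && f 2 && f 3

theorem a4_spec {f : Fin 4 → Bool} (h : a4 f = true) (x : Fin 4) : f x = true := by
  simp only [a4, Bool.and_eq_true] at h
  obtain ⟨⟨⟨h0, h1⟩, h2⟩, h3⟩ := h
  fin_cases x <;> assumption

def cov (z1 z2 z3 z4 a b c d : Fin 4) : Pc := ⟨a, b, c, d, nz a z1, nz b z2, nz c z3, nz d z4⟩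

def leaf (md : Bool) (p n : List Pc) (z1 z2 z3 z4 : Fin 4) : Bool :=
  a4 fun a => a4 fun b => a4 fun c =>
    cond md (dead p n (cov z1 z2 z3 0 a b c 0)) (a4 fun d => dead p n (cov z1 z2 z3 z4 a b c d))

def chk (md : Bool) : Tr → List Pc → List Pc → Bool
  | .L z, p, n => leaf md p n (dg (z / 64)) (dg (z / 16)) (dg (z / 4)) (dg z)
  | .S y t u, p, n => chk md t (dc y :: p) n && chk md u p (dc y :: n)

structure Hyp (md : Bool) (W : Pc → Prop) : Prop where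
  sep : ∀ x y, W x → W y → cf x y = false
  ex : ∀ z1 z2 z3 z4, ∃ a b c d, (md = true ∧ W (cov z1 z2 z3 0 a b c 0)) ∨
    (md = false ∧ W (cov z1 z2 z3 z4 a b c d))

theorem sound {md : Bool} {W : Pc → Prop} (H : Hyp md W) (t : Tr) : ∀ p n : List Pc,
    (∀ x ∈ p, W x) → (∀ x ∈ n, ¬W x) → chk md t p n = true → False := by
  induction t with
  | L z =>
    intro p n hp hn h
    have hd : ∀ y, dead p n y = true → ¬W y := by
      intro y hy wy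
      simp only [dead, Bool.or_eq_true, List.any_eq_true, decide_eq_true_iff] at hy
      rcases hy with ⟨x, hx, hc⟩ | ⟨x, hx, rfl⟩
      · rw [H.sep y x wy (hp x hx)] at hc
        exact absurd hc (by decide)
      · exact hn y hx wy
    obtain ⟨a, b, c, d, hw⟩ := H.ex (dg (z / 64)) (dg (z / 16)) (dg (z / 4)) (dg z)
    rw [chk, leaf] at h
    have h1 := a4_spec (a4_spec (a4_spec h a) b) c
    rcases hw with ⟨rfl, hw⟩ | ⟨rfl, hw⟩
    · exact hd _ h1 hw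
    · rw [cond_false] at h1
      exact hd _ (a4_spec h1 d) hw
  | S y t u it iu =>
    intro p n hp hn h
    simp only [chk, Bool.and_eq_true] at h
    by_cases hy : W (dc y)
    · exact it _ n (List.forall_mem_cons.2 ⟨hy, hp⟩) hn h.1
    · exact iu p _ hp (List.forall_mem_cons.2 ⟨hy, hn⟩) h.2

theorem nz_perm (E : Perm (Fin 4)) (a z : Fin 4) : nz (E a) (E z) = nz a z := by
  simp only [nz, ne_eq, E.apply_eq_iff_eq]

theorem cf_false {x y : Pc}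
    (h : lo x y ≤ ds x y → ds x y ≤ hi x y → x.a = y.a ∧ x.b = y.b ∧ x.c = y.c ∧ x.d = y.d) :
    cf x y = false := by
  by_contra hc
  simp only [cf, Bool.not_eq_false, Bool.and_eq_true, Nat.blt_eq, Nat.ble_eq] at hc
  obtain ⟨e1, e2, e3, e4⟩ := h hc.1.2 hc.2
  have := hc.1.1
  simp [ds, e1, e2, e3, e4] at this

theorem ref4 {W : W4 (Fin 4)} (hW : CSec4 W) (E1 E2 E3 E4 : Perm (Fin 4)) (t : Tr) (p : List Pc)
    (h : chk false t p [] = true)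
    (hp : ∀ x ∈ p, W (E1 x.a) (E2 x.b) (E3 x.c) (E4 x.d) x.s x.t x.u x.v) : False := by
  refine sound (W := fun x => W (E1 x.a) (E2 x.b) (E3 x.c) (E4 x.d) x.s x.t x.u x.v)
    ⟨fun x y wx wy => cf_false fun h1 h2 => ?_, fun z1 z2 z3 z4 => ?_⟩ t p [] hp (by simp) h
  · have := hW.sep _ _ _ _ _ _ _ _ _ _ _ _ _ _ _ _ wx wy
      (by simpa only [nq_perm, lo, ds] using h1) (by simpa only [nq_perm, ds, hi] using h2)
    simpa only [EmbeddingLike.apply_eq_iff_eq] using this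
  · obtain ⟨c1, c2, c3, c4, w⟩ := hW.ex (E1 z1) (E2 z2) (E3 z3) (E4 z4)
    obtain ⟨a, rfl⟩ := E1.surjective c1
    obtain ⟨b, rfl⟩ := E2.surjective c2
    obtain ⟨c, rfl⟩ := E3.surjective c3
    obtain ⟨d, rfl⟩ := E4.surjective c4
    simp only [nz_perm] at w
    exact ⟨a, b, c, d, Or.inr ⟨rfl, w⟩⟩

theorem ref3 {W : W3 (Fin 4)} (hW : CSec3 W) (E1 E2 E3 : Perm (Fin 4)) (t : Tr) (p : List Pc)
    (h : chk true t p [] = true)
    (hp : ∀ x ∈ p, x.d = 0 ∧ x.v = false ∧ W (E1 x.a) (E2 x.b) (E3 x.c) x.s x.t x.u) : False := by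
  refine sound (W := fun x => x.d = 0 ∧ x.v = false ∧ W (E1 x.a) (E2 x.b) (E3 x.c) x.s x.t x.u)
    ⟨fun x y wx wy => cf_false fun h1 h2 => ?_, fun z1 z2 z3 _ => ?_⟩ t p [] hp (by simp) h
  · obtain ⟨x1, x2, wx⟩ := wx
    obtain ⟨y1, y2, wy⟩ := wy
    simp only [lo, ds, hi, x1, x2, y1, y2, nq_self, T23.b00, add_zero] at h1 h2
    have := hW.sep _ _ _ _ _ _ _ _ _ _ _ _ wx wy (by simpa only [nq_perm] using h1)
      (by simpa only [nq_perm] using h2)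
    simp only [EmbeddingLike.apply_eq_iff_eq] at this
    exact ⟨this.1, this.2.1, this.2.2, x1.trans y1.symm⟩
  · obtain ⟨c1, c2, c3, w⟩ := hW.ex (E1 z1) (E2 z2) (E3 z3)
    obtain ⟨a, rfl⟩ := E1.surjective c1
    obtain ⟨b, rfl⟩ := E2.surjective c2
    obtain ⟨c, rfl⟩ := E3.surjective c3
    simp only [nz_perm] at w
    exact ⟨a, b, c, 0, Or.inl ⟨rfl, rfl, rfl, w⟩⟩

def tL : Tr := (.S 18 (.S 17 (.S 26 (.L 0) (.L 32)) (.L 65)) (.S 272 (.S 616 (.S 265 (.L 80)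
  (.S 313 (.S 64 (.L 54) (.L 4)) (.L 81))) (.S 632 (.S 265 (.L 80) (.S 297 (.S 64 (.L 55) (.L 4))
  (.L 81))) (.S 576 (.S 281 (.L 21) (.S 297 (.S 120 (.L 53) (.L 6)) (.S 313 (.S 96 (.L 53) (.L 6))
  (.L 80)))) (.L 36)))) (.L 17)))

theorem cL : chk false tL [dc 7, dc 284] [] = true := by decide +kernel

def tP : Tr := (.S 76 (.S 1297 (.L 21) (.L 17)) (.S 140 (.S 1553 (.L 41) (.L 33)) (.S 204
  (.S 1809 (.L 61) (.L 49)) (.L 1))))

theorem cP : chk false tP [dc 5, dc 322, dc 642, dc 962, dc 1048, dc 2088, dc 3128] [] = true := by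
  decide +kernel

theorem cB : chk true (.S 1348 (.L 144) (.L 80)) [dc 5, dc 322, dc 128, dc 1024, dc 2048, dc 3072]
    [] = true := by decide +kernel

theorem cC : chk true (.L 20) [dc 5, dc 258, dc 64, dc 128, dc 192] [] = true := by decide +kernel

theorem cA0 : chk true (.S 1605 (.L 16) (.L 160)) [dc 5, dc 322, dc 1538, dc 2048, dc 3072]
    [] = true := by decide +kernel

theorem cA3 : chk true (.L 16) [dc 5, dc 322, dc 1538, dc 2048, dc 3842] [] = true := by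
  decide +kernel

theorem cA4 : chk true (.L 16) [dc 5, dc 322, dc 1538, dc 2818, dc 3072] [] = true := by
  decide +kernel

theorem last (E : Perm (Fin 4)) {v : Fin 4} (h0 : v ≠ E 0) (h1 : v ≠ E 1) (h2 : v ≠ E 2) :
    v = E 3 := by
  obtain ⟨u, rfl⟩ := E.surjective v
  simp only [ne_eq, EmbeddingLike.apply_eq_iff_eq] at h0 h1 h2 ⊢
  omega

theorem ne0 (E : Perm (Fin 4)) : E 1 ≠ E 0 ∧ E 2 ≠ E 0 ∧ E 3 ≠ E 0 ∧ E 1 ≠ E 2 ∧ E 1 ≠ E 3 ∧
    E 2 ≠ E 3 := by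
  simp only [ne_eq, EmbeddingLike.apply_eq_iff_eq]
  decide

/-- An arm does not meet the centre. -/
theorem l1 {W : W4 (Fin 4)} (hW : CSec4 W) {x1 x2 x3 x4 y2 y3 y4 : Fin 4}
    (h1 : W x1 x2 x3 x4 true true true false) (h2 : W x1 y2 y3 y4 false false true true)
    (n2 : y2 ≠ x2) (n4 : y4 ≠ x4) : False := by
  by_cases n3 : y3 = x3
  · obtain ⟨E1, rfl⟩ := exists_perm1 (0 : Fin 4) x1
    obtain ⟨E2, rfl, rfl⟩ := exists_perm2 (a := (0 : Fin 4)) (b := 1) (by decide) n2.symm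
    obtain ⟨E3, rfl⟩ := exists_perm1 (0 : Fin 4) x3
    obtain ⟨E4, rfl, rfl⟩ := exists_perm2 (a := (0 : Fin 4)) (b := 1) (by decide) n4.symm
    subst n3
    refine ref4 hW E1 E2 E3 E4 _ _ cL ?_
    simp only [List.forall_mem_cons]
    exact ⟨h1, h2, by simp⟩
  · refine n2 (hW.sep _ _ _ _ _ _ _ _ _ _ _ _ _ _ _ _ h2 h1 ?_ ?_).2.1 <;>
      simp only [nq_self, nq_of_ne n2, nq_of_ne n3, nq_of_ne n4] <;> decide

/-- The data of a cross at one further coordinate. -/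
structure D3 (W : W3 (Fin 4)) (x1 z x3 : Fin 4) (φ ψ : Fin 4 → Fin 4) : Prop where
  sec : CSec3 W
  ctr : W x1 z x3 true false true
  ar : ∀ b, W x1 (φ b) b false (nz (φ b) z) false
  br : ∀ a, W a (ψ a) x3 false (nz (ψ a) z) false

variable {W : W3 (Fin 4)} {x1 z x3 : Fin 4} {φ ψ : Fin 4 → Fin 4}

theorem D3.inj (h : D3 W x1 z x3 φ ψ) {b b' : Fin 4} (n : b ≠ b') (e : φ b = φ b') : φ b = z := by
  by_contra hz
  have h1 := h.ar b
  have h2 := h.ar b'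
  rw [← e, nz_of_ne hz] at h2
  rw [nz_of_ne hz] at h1
  refine n (h.sec.sep _ _ _ _ _ _ _ _ _ _ _ _ h1 h2 ?_ ?_).2.2 <;>
    simp only [nq_self, nq_of_ne n] <;> decide

theorem D3.injB (h : D3 W x1 z x3 φ ψ) {a a' : Fin 4} (n : a ≠ a') (e : ψ a = ψ a') : ψ a = z := by
  by_contra hz
  have h1 := h.br a
  have h2 := h.br a'
  rw [← e, nz_of_ne hz] at h2
  rw [nz_of_ne hz] at h1
  refine n (h.sec.sep _ _ _ _ _ _ _ _ _ _ _ _ h1 h2 ?_ ?_).1 <;>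
    simp only [nq_self, nq_of_ne n] <;> decide

theorem D3.ar0 (h : D3 W x1 z x3 φ ψ) {b : Fin 4} (e : φ b = z) : W x1 z b false false false := by
  simpa only [e, nz_self] using h.ar b

theorem D3.ar1 (h : D3 W x1 z x3 φ ψ) {b : Fin 4} (e : φ b ≠ z) :
    W x1 (φ b) b false true false := by
  simpa only [nz_of_ne e] using h.ar b

theorem D3.br0 (h : D3 W x1 z x3 φ ψ) {a : Fin 4} (e : ψ a = z) : W a z x3 false false false := by
  simpa only [e, nz_self] using h.br a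

theorem D3.br1 (h : D3 W x1 z x3 φ ψ) {a : Fin 4} (e : ψ a ≠ z) :
    W a (ψ a) x3 false true false := by
  simpa only [nz_of_ne e] using h.br a

theorem D3.all (h : D3 W x1 z x3 φ ψ) {b b' : Fin 4} (n : b ≠ x3) (n' : b' ≠ x3) (e : φ b ≠ z)
    (hB : ∀ a, a ≠ x1 → ψ a = z) : φ b' ≠ z := by
  intro e'
  have nb : b ≠ b' := fun q => e (q ▸ e')
  have w1 := h.ar1 e
  obtain ⟨E1, rfl⟩ := exists_perm1 (0 : Fin 4) x1
  obtain ⟨E2, rfl, q⟩ := exists_perm2 (a := (0 : Fin 4)) (b := 1) (by decide) e.symm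
  obtain ⟨E3, rfl, rfl, rfl⟩ := exists_perm3 (a := (0 : Fin 4)) (b := 1) (c := 2) (by decide)
    (by decide) (by decide) n.symm n'.symm nb
  rw [← q] at w1
  obtain ⟨m1, m2, m3, -⟩ := ne0 E1
  refine ref3 h.sec E1 E2 E3 _ _ cB ?_
  simp only [List.forall_mem_cons]
  exact ⟨⟨rfl, rfl, h.ctr⟩, ⟨rfl, rfl, w1⟩, ⟨rfl, rfl, h.ar0 e'⟩, ⟨rfl, rfl, h.br0 (hB _ m1)⟩,
    ⟨rfl, rfl, h.br0 (hB _ m2)⟩, ⟨rfl, rfl, h.br0 (hB _ m3)⟩, by simp⟩

theorem D3.mid (h : D3 W x1 z x3 φ ψ) (e : φ x3 ≠ z) : ∃ b, b ≠ x3 ∧ φ b ≠ z := by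
  by_contra! hA
  have w1 := h.ar1 e
  obtain ⟨E1, rfl⟩ := exists_perm1 (0 : Fin 4) x1
  obtain ⟨E2, rfl, q⟩ := exists_perm2 (a := (0 : Fin 4)) (b := 1) (by decide) e.symm
  obtain ⟨E3, rfl⟩ := exists_perm1 (0 : Fin 4) x3
  rw [← q] at w1
  obtain ⟨m1, m2, m3, -⟩ := ne0 E3
  refine ref3 h.sec E1 E2 E3 _ _ cC ?_
  simp only [List.forall_mem_cons]
  exact ⟨⟨rfl, rfl, h.ctr⟩, ⟨rfl, rfl, w1⟩, ⟨rfl, rfl, h.ar0 (hA _ m1)⟩,
    ⟨rfl, rfl, h.ar0 (hA _ m2)⟩, ⟨rfl, rfl, h.ar0 (hA _ m3)⟩, by simp⟩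

theorem D3.mat (h : D3 W x1 z x3 φ ψ) {b a : Fin 4} (n : b ≠ x3) (e : φ b ≠ z) (n' : a ≠ x1)
    (e' : ψ a ≠ z) : ∃ a', a' ≠ x1 ∧ ψ a' = φ b := by
  by_contra! hB
  have w1 := h.ar1 e
  have w2 := h.br1 e'
  obtain ⟨E1, rfl, rfl⟩ := exists_perm2 (a := (0 : Fin 4)) (b := 1) (by decide) n'.symm
  obtain ⟨E3, rfl, rfl⟩ := exists_perm2 (a := (0 : Fin 4)) (b := 1) (by decide) n.symm
  obtain ⟨E2, rfl, q, q'⟩ := exists_perm3 (a := (0 : Fin 4)) (b := 1) (c := 2) (by decide)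
    (by decide) (by decide) e.symm e'.symm (hB _ n').symm
  obtain ⟨m1, m2, m3, m4, m5, m6⟩ := ne0 E1
  have key : ∀ a, a ≠ E1 0 → E1 1 ≠ a → ψ a ≠ E2 0 → ψ a = E2 3 := fun a h1 h2 h3 =>
    last E2 h3 (q ▸ hB a h1) fun h4 => e' (h.injB h2 (q'.symm.trans h4.symm))
  rw [← q] at w1
  rw [← q'] at w2
  by_cases v : ψ (E1 2) = E2 0 <;> by_cases w : ψ (E1 3) = E2 0
  · refine ref3 h.sec E1 E2 E3 _ _ cA0 ?_
    simp only [List.forall_mem_cons]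
    exact ⟨⟨rfl, rfl, h.ctr⟩, ⟨rfl, rfl, w1⟩, ⟨rfl, rfl, w2⟩, ⟨rfl, rfl, h.br0 v⟩,
      ⟨rfl, rfl, h.br0 w⟩, by simp⟩
  · have w3 := h.br1 w
    rw [key _ m3 m5 w] at w3
    refine ref3 h.sec E1 E2 E3 _ _ cA3 ?_
    simp only [List.forall_mem_cons]
    exact ⟨⟨rfl, rfl, h.ctr⟩, ⟨rfl, rfl, w1⟩, ⟨rfl, rfl, w2⟩, ⟨rfl, rfl, h.br0 v⟩,
      ⟨rfl, rfl, w3⟩, by simp⟩
  · have w3 := h.br1 v
    rw [key _ m2 m4 v] at w3
    refine ref3 h.sec E1 E2 E3 _ _ cA4 ?_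
    simp only [List.forall_mem_cons]
    exact ⟨⟨rfl, rfl, h.ctr⟩, ⟨rfl, rfl, w1⟩, ⟨rfl, rfl, w2⟩, ⟨rfl, rfl, w3⟩,
      ⟨rfl, rfl, h.br0 w⟩, by simp⟩
  · exact v (h.injB m6 ((key _ m2 m4 v).trans (key _ m3 m5 w).symm))

/-- The two pure patterns exclude each other. -/
theorem pab {W : W4 (Fin 4)} (hW : CSec4 W) {x1 z2 x3 z4 : Fin 4} {φ ψ : Fin 4 → Fin 4}
    (h0 : W x1 z2 x3 z4 true false true false)
    (hA : ∀ b, b ≠ x3 → φ b ≠ z2 ∧ W x1 (φ b) b z4 false true false false)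
    (hB : ∀ a, a ≠ x1 → ψ a ≠ z4 ∧ W a z2 x3 (ψ a) false false false true) : False := by
  have iA : ∀ b b', b ≠ x3 → b' ≠ x3 → b ≠ b' → φ b ≠ φ b' := fun b b' n n' m e => by
    refine m (hW.sep _ _ _ _ _ _ _ _ _ _ _ _ _ _ _ _ (hA b n).2 (hA b' n').2 ?_ ?_).2.2.1 <;>
      simp only [e, nq_self, nq_of_ne m] <;> decide
  have iB : ∀ b b', b ≠ x1 → b' ≠ x1 → b ≠ b' → ψ b ≠ ψ b' := fun b b' n n' m e => by
    refine m (hW.sep _ _ _ _ _ _ _ _ _ _ _ _ _ _ _ _ (hB b n).2 (hB b' n').2 ?_ ?_).1 <;>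
      simp only [e, nq_self, nq_of_ne m] <;> decide
  obtain ⟨E1, rfl⟩ := exists_perm1 (0 : Fin 4) x1
  obtain ⟨E3, rfl⟩ := exists_perm1 (0 : Fin 4) x3
  obtain ⟨m1, m2, m3, m4, m5, m6⟩ := ne0 E1
  obtain ⟨k1, k2, k3, k4, k5, k6⟩ := ne0 E3
  obtain ⟨E2, rfl, q1, q2⟩ := exists_perm3 (a := (0 : Fin 4)) (b := 1) (c := 2) (by decide)
    (by decide) (by decide) (hA _ k1).1.symm (hA _ k2).1.symm (iA _ _ k1 k2 k4)
  obtain ⟨E4, rfl, r1, r2⟩ := exists_perm3 (a := (0 : Fin 4)) (b := 1) (c := 2) (by decide)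
    (by decide) (by decide) (hB _ m1).1.symm (hB _ m2).1.symm (iB _ _ m1 m2 m4)
  have q3 := last E2 (hA _ k3).1 (q1 ▸ (iA _ _ k1 k3 k5).symm) (q2 ▸ (iA _ _ k2 k3 k6).symm)
  have r3 := last E4 (hB _ m3).1 (r1 ▸ (iB _ _ m1 m3 m5).symm) (r2 ▸ (iB _ _ m2 m3 m6).symm)
  have a1 := (hA _ k1).2
  have a2 := (hA _ k2).2
  have a3 := (hA _ k3).2
  have b1 := (hB _ m1).2
  have b2 := (hB _ m2).2
  have b3 := (hB _ m3).2
  rw [← q1] at a1
  rw [← q2] at a2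
  rw [q3] at a3
  rw [← r1] at b1
  rw [← r2] at b2
  rw [r3] at b3
  refine ref4 hW E1 E2 E3 E4 _ _ cP ?_
  simp only [List.forall_mem_cons]
  exact ⟨h0, a1, a2, a3, b1, b2, b3, by simp⟩

end Pool.Agent.MP_92191b_al.X4
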