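import Pool.Agent.MP_92191b_al.K6.Basic

/-! Identities at one coordinate of a cross over four letters. -/

namespace Pool.Agent.MP_92191b_al.X4

open K6

/-- The possible values of the six arms at one coordinate. -/
def Gd (z : Fin 4) (x y : Fin 3 → Fin 4) : Prop :=
  (∀ b b', b ≠ b' → x b = x b' → x b = z) ∧ (∀ a a', a ≠ a' → y a = y a' → y a = z) ∧
  (∀ a, y a ≠ z → ∃ b, x b = y a) ∧
  ∀ b, x b ≠ z → (∃ a, y a = x b) ∨ ((∀ b', x b' ≠ z) ∧ ∀ a, y a = z)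

instance (z : Fin 4) (x y : Fin 3 → Fin 4) : Decidable (Gd z x y) := by
  unfold Gd; infer_instance

def ee (z a b : Fin 4) : ℕ := (1 - nq a b) * nq a z

def nn (z : Fin 4) (x y : Fin 3 → Fin 4) : ℕ :=
  nq (x 0) z * (1 - nq (y 0) z) * (1 - nq (y 1) z) * (1 - nq (y 2) z)

def tt (z : Fin 4) (y : Fin 3 → Fin 4) : ℕ := nq (y 0) z * nq (y 1) z * nq (y 2) z

def PW (z : Fin 4) (x y : Fin 3 → Fin 4) : Prop :=
  (∀ a, nq (y a) z = ee z (x 0) (y a) + ee z (x 1) (y a) + ee z (x 2) (y a)) ∧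
  (∀ b, nq (x b) z = nn z x y + ee z (x b) (y 0) + ee z (x b) (y 1) + ee z (x b) (y 2)) ∧
  (∀ a, nq (x 0) z * nq (y a) z + nq (x 1) z * nq (y a) z + nq (x 2) z * nq (y a) z =
    nq (y a) z * nq (y 0) z + nq (y a) z * nq (y 1) z + nq (y a) z * nq (y 2) z) ∧
  (ee z (x 0) (y 0) * (1 - tt z y) + ee z (x 1) (y 0) * (1 - tt z y) +
    ee z (x 2) (y 0) * (1 - tt z y) + tt z y = nq (y 0) z) ∧
  (∀ b, ee z (x b) (y 0) * (1 - tt z y) + tt z y ≤ nq (x b) z * nq (y 0) z) ∧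
  ∀ a a', a ≠ a' → nq (y a) (y a') + nq (y a) z * nq (y a') z = nq (y a) z + nq (y a') z

instance (z : Fin 4) (x y : Fin 3 → Fin 4) : Decidable (PW z x y) := by
  unfold PW; infer_instance

theorem pw0 : ∀ z x0 x1 x2 y0 y1 y2 : Fin 4, Gd z ![x0, x1, x2] ![y0, y1, y2] →
    PW z ![x0, x1, x2] ![y0, y1, y2] := by decide +kernel

theorem pw {z : Fin 4} {x y : Fin 3 → Fin 4} (h : Gd z x y) : PW z x y := by
  have e : ∀ x : Fin 3 → Fin 4, ![x 0, x 1, x 2] = x := fun x => by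
    funext b
    fin_cases b <;> rfl
  have := pw0 z (x 0) (x 1) (x 2) (y 0) (y 1) (y 2)
  rw [e, e] at this
  exact this h

theorem pw2 : ∀ z a b : Fin 4, nq a b + nq a z * nq b z + ee z a b = nq a z + nq b z ∧
    ee z a b ≤ nq a z * nq b z ∧ nq a z * nq b z ≤ nq a z ∧ nq a z * nq b z ≤ nq b z ∧
    nq a z * nq a z = nq a z := by decide +kernel

end Pool.Agent.MP_92191b_al.X4
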